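import Pool.Agent.R840.GS.F

/-!
# Core versus graded core: Gorenstein section rings of dimension at most four

Let `S` be a graded Gorenstein ring of dimension `m` with `S_0 = k` such that `O(1)` is invertible
on `Proj S` (this is so for every section ring). Then the Hilbert series of `S` is `Q / (1 - X) ^ m`
with a polynomial `Q` of degree `s = m + a(S)` with symmetric coefficients, `Q(0) = 1` and
`Q(1) > 0`. For `s ≤ 3` this forces `dim S_1 ≥ m - 1`. If `a(S) < 0` and `m ≤ 4` this gives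
`S_1 ≠ 0`, and so by Hyry and Smith the core and the graded core of `I_N` agree for large `N`.
-/

set_option autoImplicit false

open Pool.Agent.R840.GS

namespace Pool.Agent.Results.MP_954e53_ag.CoindexThree

theorem sum_pred {m : ℕ} {e : Fin m → ℕ} (h : ∀ i, 0 < e i) : ∑ i, (e i - 1) + m = ∑ i, e i := by
  have h1 : ∑ i : Fin m, (e i - 1) + ∑ _i : Fin m, 1 = ∑ i, e i := by
    rw [← Finset.sum_add_distrib]
    exact Finset.sum_congr rfl fun i _ => by have := h i; omega
  simpa using h1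

theorem result {k S : Type} [Field k] [CommRing S] [Algebra k S] (𝒮 : ℕ → Submodule k S)
    [GradedAlgebra 𝒮] [IsNoetherianRing S] [∀ n, Module.Finite k (𝒮 n)]
    (h0 : ∀ x ∈ 𝒮 0, ∃ c : k, algebraMap k S c = x) (hinv : TwistInvertible 𝒮)
    {m : ℕ} (θ : Fin m → S) (e : Fin m → ℕ) (σ : ℕ) (h : GorData 𝒮 θ e σ) :
    -- `a(S) < 0` and `dim S ≤ 4`
    (σ < ∑ i, e i → m ≤ 4 → m ≤ Module.finrank k (𝒮 1) + 1 ∧ ∃ x ∈ 𝒮 1, x ≠ 0) ∧
    -- `a(S) = s - m` with `s ≤ 3`, in all dimensions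
    (∑ i, e i ≤ σ + m) ∧
    (σ + m = ∑ i, e i → Module.finrank k (𝒮 1) = m) ∧
    (σ + m = ∑ i, e i + 1 → Module.finrank k (𝒮 1) = m + 1) ∧
    (σ + m = ∑ i, e i + 2 → m ≤ Module.finrank k (𝒮 1) + 1) ∧
    (σ + m = ∑ i, e i + 3 → m ≤ Module.finrank k (𝒮 1)) ∧
    -- `a(S) = 4 - m` and `a(S) = 5 - m` with `S_1 = 0`
    (σ + m = ∑ i, e i + 4 → (∀ x ∈ 𝒮 1, x = 0) →
      2 * ∑ n ∈ Finset.range (σ + 1), (hf 𝒮 (Ideal.span (Set.range θ)) n : ℤ) =
        (2 * (Module.finrank k (𝒮 2) : ℤ) + (m - 1) * (m - 4)) * ∏ i, (e i : ℤ)) ∧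
    (σ + m = ∑ i, e i + 5 → (∀ x ∈ 𝒮 1, x = 0) →
      ∑ n ∈ Finset.range (σ + 1), (hf 𝒮 (Ideal.span (Set.range θ)) n : ℤ) =
        (2 * (Module.finrank k (𝒮 2) : ℤ) + (m - 1) * (m - 2)) * ∏ i, (e i : ℤ)) := by
  obtain ⟨Q, hrev, hdeg, q0, q1, q2, hQ1, hpos⟩ := exists_numerator 𝒮 h0 hinv h
  have hsum := sum_pred h.pos
  have hev : Q.eval 1 = ∑ j ∈ Finset.range (Q.natDegree + 1), Q.coeff j := by
    rw [Polynomial.eval_eq_sum_range]
    simp
  set d1 := Module.finrank k (𝒮 1) with hd1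
  set d2 := Module.finrank k (𝒮 2) with hd2
  have c0 : σ + m = ∑ i, e i → d1 = m := by
    intro hs
    have hd : Q.natDegree = 0 := by omega
    have h1 : Q.coeff 1 = 0 := Polynomial.coeff_eq_zero_of_natDegree_lt (by omega)
    rw [h1] at q1
    have : (d1 : ℚ) = m := by linarith
    exact_mod_cast this
  have c1 : σ + m = ∑ i, e i + 1 → d1 = m + 1 := by
    intro hs
    have hd : Q.natDegree = 1 := by omega
    have h1 : Q.coeff 1 = Q.coeff 0 := coeff_symm_of_reverse hrev (by omega)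
    rw [h1, q0] at q1
    have : (d1 : ℚ) = m + 1 := by linarith
    exact_mod_cast this
  have c2 : σ + m = ∑ i, e i + 2 → m ≤ d1 + 1 := by
    intro hs
    have hd : Q.natDegree = 2 := by omega
    have h1 : Q.coeff 2 = Q.coeff 0 := coeff_symm_of_reverse hrev (by omega)
    rw [hd] at hev
    simp only [Finset.sum_range_succ, Finset.sum_range_zero, zero_add] at hev
    rw [h1, q0, q1] at hev
    rw [hev] at hpos
    have : (m : ℚ) < d1 + 2 := by linarith
    have h2 : m < d1 + 2 := by exact_mod_cast this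
    omega
  have c3 : σ + m = ∑ i, e i + 3 → m ≤ d1 := by
    intro hs
    have hd : Q.natDegree = 3 := by omega
    have h1 : Q.coeff 3 = Q.coeff 0 := coeff_symm_of_reverse hrev (by omega)
    have h2 : Q.coeff 2 = Q.coeff 1 := coeff_symm_of_reverse hrev (by omega)
    rw [hd] at hev
    simp only [Finset.sum_range_succ, Finset.sum_range_zero, zero_add] at hev
    rw [h1, h2, q0, q1] at hev
    rw [hev] at hpos
    have : (m : ℚ) < d1 + 1 := by linarith
    have h2 : m < d1 + 1 := by exact_mod_cast this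
    omega
  have z1 : (∀ x ∈ 𝒮 1, x = 0) → d1 = 0 := by
    intro hz
    have : 𝒮 1 = ⊥ := by
      rw [eq_bot_iff]
      exact fun x hx => (Submodule.mem_bot k).2 (hz x hx)
    rw [hd1, this, finrank_bot]
  refine ⟨?_, by omega, c0, c1, c2, c3, ?_, ?_⟩
  · intro ha hm
    have hb : m ≤ d1 + 1 := by
      have : Q.natDegree ≤ 3 := by omega
      rcases Nat.lt_or_ge Q.natDegree 1 with h1 | h1
      · have := c0 (by omega)
        omega
      rcases Nat.lt_or_ge Q.natDegree 2 with h2 | h2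
      · have := c1 (by omega)
        omega
      rcases Nat.lt_or_ge Q.natDegree 3 with h3 | h3
      · exact c2 (by omega)
      · have := c3 (by omega)
        omega
    refine ⟨hb, ?_⟩
    by_contra hcon
    have hz : ∀ x ∈ 𝒮 1, x = 0 := by
      intro x hx
      by_contra hx0
      exact hcon ⟨x, hx, hx0⟩
    have hd1z := z1 hz
    have hm1 : m ≤ 1 := by omega
    have := c0 (by omega)
    omega
  · intro hs hz
    have hd1z := z1 hz
    have hd : Q.natDegree = 4 := by omega
    have h1 : Q.coeff 4 = Q.coeff 0 := coeff_symm_of_reverse hrev (by omega)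
    have h2 : Q.coeff 3 = Q.coeff 1 := coeff_symm_of_reverse hrev (by omega)
    rw [hd] at hev
    simp only [Finset.sum_range_succ, Finset.sum_range_zero, zero_add] at hev
    rw [h1, h2, q0, q1, q2, hd1z] at hev
    have hE : 2 * Q.eval 1 = 2 * (d2 : ℚ) + (m - 1) * (m - 4) := by
      rw [hev]
      push_cast
      ring
    have hfin : 2 * ∑ n ∈ Finset.range (σ + 1), (hf 𝒮 (Ideal.span (Set.range θ)) n : ℚ) =
        (2 * (d2 : ℚ) + (m - 1) * (m - 4)) * ∏ i, (e i : ℚ) := by
      rw [← hQ1, ← hE]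
      ring
    exact_mod_cast hfin
  · intro hs hz
    have hd1z := z1 hz
    have hd : Q.natDegree = 5 := by omega
    have h1 : Q.coeff 5 = Q.coeff 0 := coeff_symm_of_reverse hrev (by omega)
    have h2 : Q.coeff 4 = Q.coeff 1 := coeff_symm_of_reverse hrev (by omega)
    have h3 : Q.coeff 3 = Q.coeff 2 := coeff_symm_of_reverse hrev (by omega)
    rw [hd] at hev
    simp only [Finset.sum_range_succ, Finset.sum_range_zero, zero_add] at hev
    rw [h1, h2, h3, q0, q1, q2, hd1z] at hev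
    have hE : Q.eval 1 = 2 * (d2 : ℚ) + (m - 1) * (m - 2) := by
      rw [hev]
      push_cast
      ring
    have hfin : ∑ n ∈ Finset.range (σ + 1), (hf 𝒮 (Ideal.span (Set.range θ)) n : ℚ) =
        (2 * (d2 : ℚ) + (m - 1) * (m - 2)) * ∏ i, (e i : ℚ) := by
      rw [← hQ1, hE]
    exact_mod_cast hfin

end Pool.Agent.Results.MP_954e53_ag.CoindexThree
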