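import Pool.Agent.R166.GS.Num

set_option autoImplicit false

/-!
# Degrees in which a Gorenstein section ring vanishes

For a section ring `S`, the core and the graded core of `I_N` are equal for all large `N` if and only
if `S` has a nonzero element of degree one (Hyry, Smith). Let `S` be a graded Gorenstein ring with
`O(1)` invertible on `Proj S` and negative `a`-invariant. We bound the number of positive degrees in
which `S` has no nonzero elements, and find a bound from which on there are nonzero elements in all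
degrees if `S` is a domain. The Hilbert polynomial `P` has degree `dim S - 1`, vanishes at the
negative integers greater than `a(S)`, is up to sign symmetric about `a(S) / 2` and gives the Hilbert
function in all degrees `≥ 0`; so each degree `z > 0` with `S_z = 0` gives two zeros `z`, `a(S) - z`
of `P`, and as `P(0) = 1` and the leading coefficient are positive the number of positive zeros of
`P`, with multiplicity, is even.
-/

open Module

namespace Pool.Agent.Results.MP_954e53_ag.EffectiveNonvanishing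

open Pool.Agent.R166.GS Pool.Agent.R840.GS

/-- Let `S` be a Noetherian graded Gorenstein `k`-algebra with `S_0 = k`, of dimension `m`, such that
`O(1)` is invertible on `Proj S` (`TwistInvertible`; this is so for every section ring). Its
`a`-invariant is `σ - ∑ e i`; suppose that it is negative, and let `c = m + a(S)`. Then at most
`2 ⌊c / 4⌋` positive degrees `z` have `S_z = 0`. If `S` is a domain, then `S_j ≠ 0` for all
`j ≥ 4 ⌊c / 4⌋`; in particular, if `-a(S) ≥ m / 2` then `S_j ≠ 0` for all `j ≥ -a(S)`. -/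
theorem result {k S : Type} [Field k] [CommRing S] [Algebra k S] (𝒮 : ℕ → Submodule k S)
    [GradedAlgebra 𝒮] [IsNoetherianRing S] [∀ n, Module.Finite k (𝒮 n)]
    (h0 : ∀ x ∈ 𝒮 0, ∃ c : k, algebraMap k S c = x) (hinv : TwistInvertible 𝒮)
    {m : ℕ} (θ : Fin m → S) (e : Fin m → ℕ) (σ : ℕ) (h : GorData 𝒮 θ e σ)
    (ha : σ < ∑ i, e i) :
    (∀ Z : Finset ℕ, (∀ z ∈ Z, 0 < z ∧ 𝒮 z = ⊥) → Z.card ≤ 2 * ((m + σ - ∑ i, e i) / 4)) ∧
    (IsDomain S →
      (∀ j, 4 * ((m + σ - ∑ i, e i) / 4) ≤ j → 𝒮 j ≠ ⊥) ∧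
      (m ≤ 2 * (∑ i, e i - σ) → ∀ j, ∑ i, e i - σ ≤ j → 𝒮 j ≠ ⊥)) := by
  obtain _ | n := m
  · simp at ha
  obtain ⟨hge, hone, P, hH⟩ := exists_isHilb 𝒮 h0 hinv h ha
  have hr : 0 < ∑ i, e i - σ := by omega
  have hc : n + 1 - (∑ i, e i - σ) = n + 1 + σ - ∑ i, e i := by omega
  have hbot : ∀ z, 𝒮 z = ⊥ → finrank k (𝒮 z) = 0 := by
    intro z hz
    rw [hz, finrank_bot]
  have hdom : IsDomain S → ∀ j, 4 * ((n + 1 + σ - ∑ i, e i) / 4) ≤ j → 𝒮 j ≠ ⊥ := by
    intro hdom m hm hm'
    refine ne_zero_of_le hH hr hone ?_ (by rw [hc]; exact hm) (hbot m hm')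
    intro i j hi hj hij
    obtain ⟨x, hx, hx0⟩ := (Submodule.ne_bot_iff _).1 fun h1 => hi (hbot i h1)
    obtain ⟨y, hy, hy0⟩ := (Submodule.ne_bot_iff _).1 fun h1 => hj (hbot j h1)
    have h6 : 𝒮 (i + j) = ⊥ := Submodule.finrank_eq_zero.1 hij
    have h7 := SetLike.mul_mem_graded hx hy
    rw [h6, Submodule.mem_bot] at h7
    exact (mul_ne_zero hx0 hy0) h7
  refine ⟨fun Z hZ => ?_, fun hd => ⟨hdom hd, fun hm j hj => hdom hd j (by omega)⟩⟩
  have h1 := (card_zeros hH hr hone).2 Z fun z hz => ⟨(hZ z hz).1, hbot z (hZ z hz).2⟩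
  rwa [hc] at h1

end Pool.Agent.Results.MP_954e53_ag.EffectiveNonvanishing
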