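import Pool.Agent.R837.FQ.Segre
import Pool.Agent.R837.FQ.Linear
import Pool.Agent.R837.FQ.User
import Pool.Agent.Y374.PF.Degree

/-!
# Section rings in the formats of the spinor variety, of the Cayley plane and of Segre varieties

`R = k[x₁, …, x_N]/I` with positive weights `w i` and a diagonal action of a finite group `G`. The
zero set of `I` is given by finitely many conditions of the following kinds, each of them imposed on
semi-invariant forms of positive degrees in place of the coordinates.

* `spinor`: a form `x`, an alternating matrix `Y` of size 5 and a vector `z` of length 5 with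
  `x zᵢ = (-1)^i Pf_i(Y)` and `Y z = 0` (the cone over the spinor variety `OG(5, 10)` in `ℙ¹⁵`,
  codimension 5);
* `cayley`: matrices `A₀, A₁, A₂` of size 3 with `adj A_t = A_{t+1} A_{t+2}` (the cone over the Cayley
  plane in `ℙ²⁶`, codimension 10);
* `tensor`: a tensor of format `n × ⋯ × n` of rank at most one (`ℙ^{n-1} × ⋯ × ℙ^{n-1}`);
* `linear`: equations which vanish on given coordinate subspaces.

Let `top` be the sum of the numbers `(∑ degrees) / 2` for the spinor variety,
`(∑ degrees + degree of the cubic form) / 2` for the Cayley plane, `(n^(m-1) - 1) ∑ a` for the tensors of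
order `m` whose entries have the degrees `a 1 i₁ + ⋯ + a m iₘ`, and for the last kind the mean of the
sums of the degrees of the coordinates outside of the subspaces. In the first three cases, if `I`
is generated by the equations and has the expected codimension, then `R` is Gorenstein and
`a(R) = top - ∑ w i`. If `S = ⨁ₘ (R_{hm})^G` is a section ring and `top < ∑ w i`, then `S₁ ≠ 0`; if
`h = 1`, then `dim S₁ ≥ ∑ w i - top`.

Idea of the proof. An element of `G × μ_∞` whose character on `S₁` is not trivial has no fixed line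
on the cone. The coordinates of the format which do not vanish on the subspace of the fixed
variables are those of a trivial weight; let `A` be their set. In the chart of a coordinate `v` in
`A` one can choose freely the coordinates in `A` which do not occur in a common monomial with `v` in
the equations. So the number of fixed variables is at most the degree of `v` in a graph on `A`. This
graph is an induced subgraph of the collinearity graph of the generalized quadrangle of order
`(2, 4)` for the Cayley plane, and of the Clebsch graph for the spinor variety. Two neighbours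
there have one (resp. no) common neighbour, so a suitable `v` has degree at most half of the number
of vertices, plus one half if the cubic form has the trivial weight. The inequality is averaged
over the group.
-/

set_option autoImplicit false

namespace Pool.Agent.Results.MP_954e53_ag.HomogeneousFormats

open MvPolynomial Finset Pool.Agent.TH144.NV Pool.Agent.Y374.PF

section blocks

variable {k : Type} [Field k] {G : Type} [Group G] {N : ℕ} (w : Fin N → ℕ)
  (α : Fin N → G →* kˣ)

/-- `f` is homogeneous of degree `d > 0`, and `G` acts on it by the character `χ`. -/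
structure Form (f : MvPolynomial (Fin N) k) (d : ℕ) (χ : G →* kˣ) : Prop where
  pos : 0 < d
  homogeneous : IsWeightedHomogeneous w f d
  semi : ∀ g, Pool.Agent.TH144.NV.act (fun i => (α i g : k)) f = C (χ g : k) * f

/-- The Pfaffian of an alternating matrix of size 5 without the row and the column `i`. -/
def pf {R : Type} [CommRing R] (Y : Matrix (Fin 5) (Fin 5) R) (i : Fin 5) : R :=
  Y (i.succAbove 0) (i.succAbove 1) * Y (i.succAbove 2) (i.succAbove 3) -
    Y (i.succAbove 0) (i.succAbove 2) * Y (i.succAbove 1) (i.succAbove 3) +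
    Y (i.succAbove 0) (i.succAbove 3) * Y (i.succAbove 1) (i.succAbove 2)

/-- Forms in place of the coordinates `x, Y, z` of the cone over the spinor variety. The degrees
and the characters are such that the monomials of `x zᵢ - (-1)^i Pf_i(Y)` have the same degree and
character. -/
structure Spinor where
  x : MvPolynomial (Fin N) k
  Y : Matrix (Fin 5) (Fin 5) (MvPolynomial (Fin N) k)
  z : Fin 5 → MvPolynomial (Fin N) k
  dx : ℕ
  dy : Fin 5 → Fin 5 → ℕ
  dz : Fin 5 → ℕ
  χx : G →* kˣ
  χy : Fin 5 → Fin 5 → G →* kˣ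
  χz : Fin 5 → G →* kˣ
  form_x : Form w α x dx χx
  form_Y : ∀ i j, i < j → Form w α (Y i j) (dy i j) (χy i j)
  form_z : ∀ i, Form w α (z i) (dz i) (χz i)
  diag : ∀ i, Y i i = 0
  alternating : ∀ i j, Y j i = -Y i j
  degrees : ∀ i : Fin 5,
    dx + dz i = dy (i.succAbove 0) (i.succAbove 1) + dy (i.succAbove 2) (i.succAbove 3) ∧
    dx + dz i = dy (i.succAbove 0) (i.succAbove 2) + dy (i.succAbove 1) (i.succAbove 3) ∧
    dx + dz i = dy (i.succAbove 0) (i.succAbove 3) + dy (i.succAbove 1) (i.succAbove 2)
  characters : ∀ i : Fin 5,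
    χx * χz i = χy (i.succAbove 0) (i.succAbove 1) * χy (i.succAbove 2) (i.succAbove 3) ∧
    χx * χz i = χy (i.succAbove 0) (i.succAbove 2) * χy (i.succAbove 1) (i.succAbove 3) ∧
    χx * χz i = χy (i.succAbove 0) (i.succAbove 3) * χy (i.succAbove 1) (i.succAbove 2)

/-- Forms in place of the coordinates of the cone over the Cayley plane: the entries of three
matrices of size 3. The degrees and the characters are such that all monomials of the cubic form
`∑ det A_t - tr (A₀ A₁ A₂)` have the degree `D` and the character `Ξ`. -/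
structure Cayley where
  A : Fin 3 → Matrix (Fin 3) (Fin 3) (MvPolynomial (Fin N) k)
  d : Fin 3 → Fin 3 → Fin 3 → ℕ
  D : ℕ
  χ : Fin 3 → Fin 3 → Fin 3 → G →* kˣ
  Ξ : G →* kˣ
  form : ∀ t i j, Form w α (A t i j) (d t i j) (χ t i j)
  degree_det : ∀ t i j, d t i j + d t (i + 1) (j + 1) + d t (i + 2) (j + 2) = D ∧
    d t i j + d t (i + 1) (j + 2) + d t (i + 2) (j + 1) = D
  degree_trace : ∀ t i j l, d t i j + d (t + 1) j l + d (t + 2) l i = D
  character_det : ∀ t i j, χ t i j * χ t (i + 1) (j + 1) * χ t (i + 2) (j + 2) = Ξ ∧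
    χ t i j * χ t (i + 1) (j + 2) * χ t (i + 2) (j + 1) = Ξ
  character_trace : ∀ t i j l, χ t i j * χ (t + 1) j l * χ (t + 2) l i = Ξ

/-- A tensor of order `m + 1` and size `n` whose entries are forms of the degrees
`a 0 i₀ + ⋯ + a m iₘ` and of the characters `ψ 0 i₀ ⋯ ψ m iₘ`. -/
structure Tensor where
  m : ℕ
  n : ℕ
  n_pos : 0 < n
  M : (Fin (m + 1) → Fin n) → MvPolynomial (Fin N) k
  a : Fin (m + 1) → Fin n → ℤ
  ψ : Fin (m + 1) → Fin n → G →* kˣ
  d : (Fin (m + 1) → Fin n) → ℕ
  degree : ∀ I, (d I : ℤ) = ∑ j, a j (I j)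
  form : ∀ I, Form w α (M I) (d I) (∏ j, ψ j (I j))

/-- Forms `y x` of the degrees `d x` in place of coordinates; equations `g` in the coordinates, which
are homogeneous for the degrees `d` and vanish on each of the `s` coordinate subspaces
`{p | p x = 0 for x ∉ F a}`. The number `top` is the mean of the sums of the degrees of the
coordinates outside of `F a`. -/
structure Linear where
  K : Type
  fintype : Fintype K
  deceq : DecidableEq K
  y : K → MvPolynomial (Fin N) k
  d : K → ℕ
  χ : K → G →* kˣ
  form : ∀ x, Form w α (y x) (d x) (χ x)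
  J : Type
  g : J → MvPolynomial K k
  homogeneous : ∀ j, ∃ m, IsWeightedHomogeneous d (g j) m
  s : ℕ
  s_pos : 0 < s
  F : Fin s → Finset K
  subspace : ∀ a j (p : K → k), (∀ x, x ∉ F a → p x = 0) → eval p (g j) = 0
  top : ℤ
  top_eq : (s : ℤ) * top = ∑ a, ∑ x ∈ univ.filter (fun x => x ∉ F a), (d x : ℤ)

/-- a condition of one of the four kinds -/
inductive Block
  | spinor (b : Spinor w α)
  | cayley (b : Cayley w α)
  | tensor (b : Tensor w α)
  | linear (b : Linear w α)

variable {w α}

/-- twice the contribution of the block to `a(R) + ∑ w i` -/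
def Block.top2 : Block w α → ℤ
  | Block.spinor b => b.dx + ∑ i, ∑ j ∈ univ.filter (fun j => i < j), (b.dy i j : ℤ) + ∑ i, (b.dz i : ℤ)
  | Block.cayley b => b.D + ∑ t, ∑ i, ∑ j, (b.d t i j : ℤ)
  | Block.tensor b => 2 * ((b.n : ℤ) ^ b.m - 1) * ∑ j, ∑ i, b.a j i
  | Block.linear b => 2 * b.top

/-- the condition at a point -/
def Block.Cond : Block w α → (Fin N → k) → Prop
  | Block.spinor b, p => (∀ i : Fin 5, eval p b.x * eval p (b.z i) =
      (-1) ^ (i : ℕ) * pf (b.Y.map (eval p)) i) ∧ ∀ i, ∑ j, eval p (b.Y i j) * eval p (b.z j) = 0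
  | Block.cayley b, p => ∀ t, ((b.A t).map (eval p)).adjugate =
      (b.A (t + 1)).map (eval p) * (b.A (t + 2)).map (eval p)
  | Block.tensor b, p => ∀ (I J : Fin (b.m + 1) → Fin b.n) (j : Fin (b.m + 1)),
      eval p (b.M I) * eval p (b.M J) =
        eval p (b.M (Function.update I j (J j))) * eval p (b.M (Function.update J j (I j)))
  | Block.linear b, p => ∀ j, eval (fun x => eval p (b.y x)) (b.g j) = 0

end blocks

variable {k : Type} [Field k] {G : Type} [Group G] {N : ℕ}

/-- A polynomial ring with positive weights `w` and a diagonal action of `G`, conditions of the four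
kinds, and homogeneous equations `F j` which vanish at all points at which the conditions hold (for
instance the equations in the conditions themselves). -/
structure Datum (k : Type) [Field k] (G : Type) [Group G] (N : ℕ) (Λ : Type) where
  w : Fin N → ℕ
  w_pos : ∀ i, 0 < w i
  α : Fin N → G →* kˣ
  block : Λ → Block w α
  J : Type
  F : J → MvPolynomial (Fin N) k
  δ : J → ℕ
  homogeneous : ∀ j, IsWeightedHomogeneous w (F j) (δ j)
  vanish : ∀ p : Fin N → k, (∀ l, (block l).Cond p) → ∀ j, eval p (F j) = 0

variable {Λ : Type}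

namespace Datum

variable (D : Datum k G N Λ)

/-- the ideal of the equations -/
noncomputable def I : Ideal (MvPolynomial (Fin N) k) := Ideal.span (Set.range D.F)

/-- the cone over `Proj R` -/
def Cone : Set (Fin N → k) := {p | ∀ j, eval p (D.F j) = 0}

/-- the automorphism `xᵢ ↦ α i g • xᵢ` of the polynomial ring -/
noncomputable def act (g : G) : MvPolynomial (Fin N) k →ₐ[k] MvPolynomial (Fin N) k :=
  Pool.Agent.TH144.NV.act fun i => (D.α i g : k)

/-- the class of `a` in `R` is a `G`-invariant form of degree `m` -/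
def Inv (m : ℕ) (a : MvPolynomial (Fin N) k) : Prop :=
  IsWeightedHomogeneous D.w a m ∧
    ∀ g, Ideal.Quotient.mk D.I (D.act g a) = Ideal.Quotient.mk D.I a

/-- the space `(R_m)^G` of the classes of these forms -/
noncomputable def sections (m : ℕ) : Submodule k (MvPolynomial (Fin N) k ⧸ D.I) where
  carrier := {q | ∃ a, D.Inv m a ∧ Ideal.Quotient.mk D.I a = q}
  add_mem' := by
    rintro _ _ ⟨a, ha, rfl⟩ ⟨b, hb, rfl⟩
    refine ⟨a + b, ⟨ha.1.add hb.1, fun g => ?_⟩, map_add _ _ _⟩
    rw [map_add, map_add, map_add, ha.2, hb.2]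
  zero_mem' := ⟨0, ⟨isWeightedHomogeneous_zero _ _ _, fun g => by rw [map_zero]⟩, map_zero _⟩
  smul_mem' := by
    rintro c _ ⟨a, ha, rfl⟩
    refine ⟨c • a, ⟨?_, fun g => ?_⟩, ?_⟩
    · exact (mem_weightedHomogeneousSubmodule k D.w m _).1
        (Submodule.smul_mem _ c ((mem_weightedHomogeneousSubmodule k D.w m _).2 ha.1))
    · rw [map_smul]
      have h1 := ha.2 g
      rw [Ideal.Quotient.eq] at h1 ⊢
      rw [← smul_sub, smul_eq_C_mul]
      exact Ideal.mul_mem_left _ _ h1
    · exact map_smul (Ideal.Quotient.mkₐ k D.I) c a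

/-- At every point of `Proj R` invariant forms of some consecutive degrees `hm`, `h(m+1)` do not
vanish. This holds if `⨁ₘ (R_{hm})^G` is the section ring of an ample invertible sheaf. -/
def SectionRing (h : ℕ) : Prop :=
  ∀ p ∈ D.Cone, p ≠ 0 → ∃ (m : ℕ) (a b : MvPolynomial (Fin N) k),
    D.Inv (h * m) a ∧ D.Inv (h * (m + 1)) b ∧ eval p a ≠ 0 ∧ eval p b ≠ 0

theorem eval_mem {p : Fin N → k} (hp : p ∈ D.Cone) {a : MvPolynomial (Fin N) k}
    (ha : a ∈ D.I) : eval p a = 0 := by
  have h1 : D.I ≤ RingHom.ker (eval p) := by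
    rw [I, Ideal.span_le]
    rintro _ ⟨j, rfl⟩
    exact (RingHom.mem_ker).2 (hp j)
  exact (RingHom.mem_ker).1 (h1 ha)

theorem eval_inv {p : Fin N → k} (hp : p ∈ D.Cone) {m : ℕ} {a : MvPolynomial (Fin N) k}
    (ha : D.Inv m a) (g : G) : eval (fun i => (D.α i g : k) * p i) a = eval p a := by
  rw [← eval_act]
  have h1 := ha.2 g
  rw [Ideal.Quotient.eq] at h1
  have h2 := D.eval_mem hp h1
  rw [map_sub, sub_eq_zero] at h2
  exact h2

/-- eigenvalues of fixed lines are `h`-th roots of unity -/
theorem pow_eq_one {h : ℕ} (hS : D.SectionRing h) {p : Fin N → k} (hp : p ∈ D.Cone)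
    (hp0 : p ≠ 0) (g : G) (μ : kˣ) (hfix : ∀ i, (D.α i g : k) * p i = (μ : k) ^ D.w i * p i) :
    μ ^ h = 1 := by
  obtain ⟨m, a, b, ha, hb, ha0, hb0⟩ := hS p hp hp0
  have key : ∀ {m : ℕ} {a : MvPolynomial (Fin N) k}, D.Inv m a → eval p a ≠ 0 →
      (μ : k) ^ m = 1 := by
    intro m a ha ha0
    have h1 := D.eval_inv hp ha g
    rw [show (fun i => (D.α i g : k) * p i) = fun i => (μ : k) ^ D.w i * p i from funext hfix,
      eval_wscale ha.1] at h1
    exact mul_right_cancel₀ ha0 (by rw [h1, one_mul])
  have h1 := key ha ha0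
  have h2 := key hb hb0
  rw [mul_add, pow_add, h1, one_mul, mul_one] at h2
  ext
  simpa using h2

end Datum

theorem Block.exists_bd [CharZero k] {w : Fin N → ℕ} {α : Fin N → G →* kˣ} (b : Block w α) :
    Nonempty (Pool.Agent.R837.FQ.BD k G N w α b.top2 b.Cond) := by
  cases b with
  | spinor b =>
    have hd : Pool.Agent.R837.FQ.Sp (fun c => Multiplicative.ofAdd
        ((Pool.Agent.R837.FQ.co b.dx b.dy b.dz c : ℕ) : ℤ)) := by
      have h1 := Pool.Agent.R837.FQ.sp_of (Multiplicative.ofAdd (b.dx : ℤ))
        (fun i j => Multiplicative.ofAdd (b.dy i j : ℤ)) (fun i => Multiplicative.ofAdd (b.dz i : ℤ))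
        (by
          intro i
          obtain ⟨h1, h2, h3⟩ := b.degrees i
          simp only [← ofAdd_add, ← Nat.cast_add]
          rw [← h1, ← h2, ← h3]
          exact ⟨rfl, rfl, rfl⟩)
      have h2 : (fun c => Multiplicative.ofAdd
        ((Pool.Agent.R837.FQ.co b.dx b.dy b.dz c : ℕ) : ℤ)) = _ := funext fun c =>
        Pool.Agent.R837.FQ.co_map (fun n : ℕ => Multiplicative.ofAdd (n : ℤ)) b.dx b.dy b.dz c
      rw [h2]
      exact h1
    have hχ := Pool.Agent.R837.FQ.sp_of b.χx b.χy b.χz b.characters
    have hform : ∀ c, Form w α (Pool.Agent.R837.FQ.co b.x (fun i j => b.Y i j) b.z c)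
        (Pool.Agent.R837.FQ.co b.dx b.dy b.dz c) (Pool.Agent.R837.FQ.co b.χx b.χy b.χz c) := by
      intro c
      fin_cases c
      · exact b.form_x
      · exact b.form_Y 0 1 (by decide)
      · exact b.form_Y 0 2 (by decide)
      · exact b.form_Y 0 3 (by decide)
      · exact b.form_Y 0 4 (by decide)
      · exact b.form_Y 1 2 (by decide)
      · exact b.form_Y 1 3 (by decide)
      · exact b.form_Y 1 4 (by decide)
      · exact b.form_Y 2 3 (by decide)
      · exact b.form_Y 2 4 (by decide)
      · exact b.form_Y 3 4 (by decide)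
      · exact b.form_z 0
      · exact b.form_z 1
      · exact b.form_z 2
      · exact b.form_z 3
      · exact b.form_z 4
    obtain ⟨bd⟩ := Pool.Agent.R837.FQ.exists_bd_sp (w := w) (α := α) _
      (fun c => (hform c).pos) hd _ hχ _ (fun c => (hform c).homogeneous)
      (fun γ c => (hform c).semi γ)
    have htop : ∑ c, ((Pool.Agent.R837.FQ.co b.dx b.dy b.dz c : ℕ) : ℤ) =
        (Block.spinor b).top2 := by
      simp only [Block.top2, Finset.sum_filter]
      rw [Fin.sum_univ_five (fun i => ∑ j, if i < j then (b.dy i j : ℤ) else 0)]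
      simp only [Fin.sum_univ_five]
      simp [Fin.sum_univ_succ, Pool.Agent.R837.FQ.co]
      ring
    rw [← htop]
    exact ⟨{ bd with
      rank := fun p hp => by
        have h1 := bd.rank p hp
        have h2 := Pool.Agent.R837.FQ.spinor_of_Qe (eval p b.x) (b.Y.map (eval p))
          (fun i => eval p (b.z i)) (fun i => by simp [b.diag i])
          (fun i j => by simp [b.alternating i j]) (by
            intro t i j
            have h3 := h1 t i j
            have h4 : (fun c => eval p (Pool.Agent.R837.FQ.co b.x (fun i j => b.Y i j) b.z c)) =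
                Pool.Agent.R837.FQ.co (eval p b.x) (fun i j => (b.Y.map (eval p)) i j)
                  (fun i => eval p (b.z i)) := funext fun c =>
              Pool.Agent.R837.FQ.co_map (eval p) b.x (fun i j => b.Y i j) b.z c
            rw [h4] at h3
            exact h3)
        exact h2 }⟩
  | cayley b =>
    have hdeg : Pool.Agent.R837.FQ.Wt (fun t i j => Multiplicative.ofAdd (b.d t i j : ℤ))
        (Multiplicative.ofAdd (b.D : ℤ)) := by
      refine ⟨fun t i j => ?_, fun t i j => ?_, fun t i j l => ?_⟩
      · simp only [← ofAdd_add, ← Nat.cast_add]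
        rw [(b.degree_det t i j).1]
      · simp only [← ofAdd_add, ← Nat.cast_add]
        rw [(b.degree_det t i j).2]
      · simp only [← ofAdd_add, ← Nat.cast_add]
        rw [b.degree_trace t i j l]
    obtain ⟨bd⟩ := Pool.Agent.R837.FQ.exists_bd_cay (w := w) (α := α) b.d b.D
      (fun t i j => (b.form t i j).pos) hdeg
      b.χ b.Ξ ⟨fun t i j => (b.character_det t i j).1, fun t i j => (b.character_det t i j).2,
        b.character_trace⟩ (fun t i j => b.A t i j) (fun t i j => (b.form t i j).homogeneous)
      (fun γ t i j => (b.form t i j).semi γ)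
    exact ⟨{ bd with
      rank := fun p hp t => Pool.Agent.R837.FQ.adj_of_Qe (fun t => (b.A t).map (eval p))
        (fun t i j => bd.rank p hp t i j) t }⟩
  | tensor b =>
    exact Pool.Agent.R837.FQ.exists_bd_segre (w := w) (α := α) b.n_pos b.a b.ψ b.M
      (fun I => by rw [← b.degree I]; exact_mod_cast (b.form I).pos)
      (fun I d hd => by
        have h1 : d = b.d I := by
          have := b.degree I
          omega
        rw [h1]
        exact (b.form I).homogeneous)
      (fun γ I => by
        rw [(b.form I).semi γ]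
        simp)
  | linear b =>
    let _ := b.fintype
    let _ := b.deceq
    exact Pool.Agent.R837.FQ.exists_bd_lin (w := w) (α := α) b.d (fun x => (b.form x).pos) b.χ b.y
      (fun x => (b.form x).homogeneous) (fun γ x => (b.form x).semi γ) b.g b.homogeneous b.s_pos
      b.F b.subspace b.top b.top_eq

namespace Datum

variable (D : Datum k G N Λ)

/-- an ideal generated by forms of degree at least two contains no forms of degree one -/
theorem eq_zero_of_mem (hδ : ∀ j, 2 ≤ D.δ j) {u : MvPolynomial (Fin N) k}
    (hu : IsWeightedHomogeneous D.w u 1) (hI : u ∈ D.I) : u = 0 := by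
  have h2 : (Polynomial.X : Polynomial (MvPolynomial (Fin N) k)) ^ 2 ∣ φ D.w u := by
    have h3 : Ideal.span (Set.range D.F) ≤
        Ideal.comap (φ D.w).toRingHom (Ideal.span {Polynomial.X ^ 2}) := by
      rw [Ideal.span_le]
      rintro _ ⟨j, rfl⟩
      rw [SetLike.mem_coe, Ideal.mem_comap, Ideal.mem_span_singleton]
      have h4 : (φ D.w).toRingHom (D.F j) = Polynomial.C (D.F j) * Polynomial.X ^ D.δ j :=
        φ_hom (D.homogeneous j)
      rw [h4]
      exact Dvd.dvd.mul_left (pow_dvd_pow _ (hδ j)) _
    have h4 := h3 hI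
    rw [Ideal.mem_comap, Ideal.mem_span_singleton] at h4
    exact h4
  rw [φ_hom hu, pow_one, Polynomial.X_pow_dvd_iff] at h2
  have h3 := h2 1 (by norm_num)
  simpa using h3

theorem finite_sections_one : FiniteDimensional k (D.sections 1) := by
  let π : MvPolynomial (Fin N) k →ₗ[k] (MvPolynomial (Fin N) k ⧸ D.I) :=
    (Ideal.Quotient.mkₐ k D.I).toLinearMap
  have h1 : FiniteDimensional k
      (Submodule.span k (Set.range (X : Fin N → MvPolynomial (Fin N) k))) :=
    FiniteDimensional.span_of_finite k (Set.finite_range _)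
  have h3 : D.sections 1 ≤ Submodule.map π
      (Submodule.span k (Set.range (X : Fin N → MvPolynomial (Fin N) k))) := by
    rintro _ ⟨a, ha, rfl⟩
    exact ⟨a, mem_span_X D.w_pos ha.1, rfl⟩
  exact Submodule.finiteDimensional_of_le h3

/-- variables of degree one are linearly independent in `R` -/
theorem card_le_finrank (hδ : ∀ j, 2 ≤ D.δ j) (T : Finset (Fin N))
    (hInv : ∀ i ∈ T, D.Inv 1 (X i)) : T.card ≤ Module.finrank k (D.sections 1) := by
  classical
  have hfin := D.finite_sections_one
  have hmem : ∀ c : {i // i ∈ T} → k,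
      Ideal.Quotient.mk D.I (∑ i, c i • (X i.1 : MvPolynomial (Fin N) k))
        ∈ D.sections 1 := by
    intro c
    rw [map_sum]
    refine Submodule.sum_mem _ (fun i _ => ?_)
    have h1 : Ideal.Quotient.mk D.I (c i • (X i.1 : MvPolynomial (Fin N) k))
        = c i • Ideal.Quotient.mk D.I (X i.1) := map_smul (Ideal.Quotient.mkₐ k D.I) _ _
    rw [h1]
    exact Submodule.smul_mem _ _ ⟨X i.1, hInv i.1 i.2, rfl⟩
  let F : ({i // i ∈ T} → k) →ₗ[k] D.sections 1 :=
    { toFun := fun c => ⟨Ideal.Quotient.mk D.I (∑ i, c i • (X i.1 : MvPolynomial (Fin N) k)),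
        hmem c⟩
      map_add' := by
        intro c d
        apply Subtype.ext
        simp only [Pi.add_apply, add_smul, Finset.sum_add_distrib, map_add]
        rfl
      map_smul' := by
        intro r' c
        apply Subtype.ext
        simp only [Pi.smul_apply, smul_eq_mul, mul_smul, ← Finset.smul_sum, RingHom.id_apply]
        exact map_smul (Ideal.Quotient.mkₐ k D.I) _ _ }
  have hF : Function.Injective F := by
    rw [injective_iff_map_eq_zero]
    intro c hc
    have h1 : Ideal.Quotient.mk D.I (∑ i, c i • (X i.1 : MvPolynomial (Fin N) k)) = 0 :=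
      congrArg Subtype.val hc
    rw [Ideal.Quotient.eq_zero_iff_mem] at h1
    have h2 : IsWeightedHomogeneous D.w (∑ i, c i • (X i.1 : MvPolynomial (Fin N) k)) 1 := by
      rw [← mem_weightedHomogeneousSubmodule]
      refine Submodule.sum_mem _ (fun i _ => Submodule.smul_mem _ _ ?_)
      rw [mem_weightedHomogeneousSubmodule]
      exact (hInv i.1 i.2).1
    have h3 := D.eq_zero_of_mem hδ h2 h1
    have h4 : LinearIndependent k (fun i : {i // i ∈ T} => (X i.1 : MvPolynomial (Fin N) k)) :=
      (linearIndependent_X (Fin N) k).comp _ Subtype.val_injective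
    funext i
    exact (Fintype.linearIndependent_iff.1 h4) c h3 i
  have h5 := LinearMap.finrank_le_finrank_of_injective hF
  simpa [Module.finrank_fintype_fun_eq_card, Fintype.card_coe] using h5

end Datum

open Classical in
theorem result [IsAlgClosed k] [CharZero k] [Finite G] [Fintype Λ] (D : Datum k G N Λ) {h : ℕ}
    (hh : 0 < h)
    -- no variable vanishes on the cone
    (hfull : ∀ i, ∃ p ∈ D.Cone, p i ≠ 0)
    -- the ring of the `(R_{hm})^G` is a section ring
    (hS : D.SectionRing h) :
    (∃ T : Finset (Fin N),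
      2 * ∑ i, (D.w i : ℤ) ≤ ∑ l, (D.block l).top2 + 2 * ∑ i ∈ T, (D.w i : ℤ) ∧
      ∀ i ∈ T, D.w i ∣ h ∧ D.Inv h (X i ^ (h / D.w i)) ∧
        ¬ IsNilpotent (Ideal.Quotient.mk D.I (X i ^ (h / D.w i)))) ∧
    (∑ l, (D.block l).top2 < 2 * ∑ i, (D.w i : ℤ) → ∃ s ∈ D.sections h, ¬ IsNilpotent s) ∧
    (h = 1 → (∀ j, 2 ≤ D.δ j) →
      2 * ∑ i, (D.w i : ℤ) - ∑ l, (D.block l).top2 ≤ 2 * Module.finrank k (D.sections 1)) := by
  have hmain := Pool.Agent.R837.FQ.total (k := k) D.w D.w_pos D.α h (fun l => (D.block l).top2)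
    (fun l => (D.block l).Cond) (fun l => (D.block l).exists_bd.some) (by
      intro g μ hμ p hp hrk
      by_contra hp0
      refine hμ (D.pow_eq_one hS (D.vanish p hrk) hp0 g μ (fun i => ?_))
      by_cases hi : p i = 0
      · rw [hi, mul_zero, mul_zero]
      · rw [hp i hi, Units.val_pow_eq_pow_val])
    (univ.filter fun i => ¬ Good h (D.w i) (D.α i)) (fun i => by simp)
  set T : Finset (Fin N) := univ.filter fun i => Good h (D.w i) (D.α i) with hT
  have hsum : 2 * ∑ i, (D.w i : ℤ) ≤ ∑ l, (D.block l).top2 + 2 * ∑ i ∈ T, (D.w i : ℤ) := by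
    have h1 := Finset.sum_filter_add_sum_filter_not (univ : Finset (Fin N))
      (fun i => Good h (D.w i) (D.α i)) (fun i => (D.w i : ℤ))
    rw [← hT] at h1
    linarith
  have hprop : ∀ i ∈ T, D.w i ∣ h ∧ D.Inv h (X i ^ (h / D.w i)) ∧
        ¬ IsNilpotent (Ideal.Quotient.mk D.I (X i ^ (h / D.w i))) := by
    intro i hi
    obtain ⟨hdvd, hα⟩ := ((Finset.mem_filter.1 hi).2).dvd (D.w_pos i)
    refine ⟨hdvd, ⟨?_, ?_⟩, ?_⟩
    · have h1 := (isWeightedHomogeneous_X k D.w i).pow (h / D.w i)
      rwa [smul_eq_mul, Nat.div_mul_cancel hdvd] at h1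
    · intro g
      have h1 : D.act g (X i ^ (h / D.w i)) = X i ^ (h / D.w i) := by
        rw [map_pow]
        show (Pool.Agent.TH144.NV.act (fun i => (D.α i g : k)) (X i)) ^ _ = _
        unfold Pool.Agent.TH144.NV.act
        rw [aeval_X, mul_pow, ← C_pow, ← Units.val_pow_eq_pow_val, hα g, Units.val_one, C_1,
          one_mul]
      rw [h1]
    · rintro ⟨m, hm⟩
      obtain ⟨p, hp, hpi⟩ := hfull i
      rw [← map_pow, Ideal.Quotient.eq_zero_iff_mem] at hm
      have := D.eval_mem hp hm
      rw [map_pow, map_pow, eval_X] at this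
      exact hpi (eq_zero_of_pow_eq_zero (eq_zero_of_pow_eq_zero this))
  refine ⟨⟨T, hsum, hprop⟩, ?_, ?_⟩
  · intro hlt
    have hne : T.Nonempty := by
      rw [Finset.nonempty_iff_ne_empty]
      intro h0
      rw [h0, Finset.sum_empty] at hsum
      omega
    obtain ⟨i, hi⟩ := hne
    exact ⟨_, ⟨_, (hprop i hi).2.1, rfl⟩, (hprop i hi).2.2⟩
  · rintro rfl hδ
    have hw1 : ∀ i ∈ T, D.w i = 1 := fun i hi => Nat.dvd_one.1 (hprop i hi).1
    have h1 := D.card_le_finrank hδ T (fun i hi => by
      have h2 := (hprop i hi).2.1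
      rw [hw1 i hi] at h2
      simpa using h2)
    have h2 : ∑ i ∈ T, (D.w i : ℤ) = T.card := by
      rw [Finset.sum_congr rfl (fun i hi => by rw [hw1 i hi, Nat.cast_one])]
      simp
    rw [h2] at hsum
    have h3 : (T.card : ℤ) ≤ Module.finrank k (D.sections 1) := by exact_mod_cast h1
    linarith

end Pool.Agent.Results.MP_954e53_ag.HomogeneousFormats
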